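import Mathlib

set_option autoImplicit false

namespace Pool.Agent.Results.MP_b34cfe_co.Counter

/-- The negated form of Q1 holds for `n = 3`, `t = 1`, `d = 3` (where `ℓ = 8`). -/
theorem result : ∃ n t d l : ℕ, n = 3 ∧ t = 1 ∧ d = 3 ∧ IsLeast {m | 2 ^ d ≤ m ∧ ¬ m ∣ n} l ∧
    ∃ S : Multiset (Fin d → ZMod n), S.sum = 0 ∧
      ((t : ℤ) + 2 ^ d - 1) * n - l + 1 ≤ Multiset.card S ∧
      ∀ T ≤ S, Multiset.card T = n * t → T.sum ≠ 0 := by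
  refine ⟨3, 1, 3, 8, rfl, rfl, rfl, ⟨by decide, fun m hm => hm.1⟩,
    ({![0, 0, 0], ![0, 1, 1], ![0, 1, 1], ![0, 2, 1], ![0, 2, 1], ![1, 0, 1], ![1, 0, 1],
      ![2, 0, 1], ![2, 0, 1], ![1, 1, 2], ![1, 1, 2], ![1, 2, 2], ![1, 2, 2], ![2, 1, 2],
      ![2, 1, 2], ![2, 2, 2], ![2, 2, 2]} : Multiset (Fin 3 → ZMod 3)),
    by decide +kernel, by decide +kernel, fun T h1 h2 => ?_⟩
  have h := Multiset.mem_powersetCard.2 ⟨h1, h2⟩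
  clear h1 h2
  revert T
  decide +kernel

end Pool.Agent.Results.MP_b34cfe_co.Counter
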